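import Pool.Agent.N912.PY.Stm

/-!
# PY4: trailing zeros and number of digits
-/

set_option autoImplicit false

namespace Pool.Agent.N458.PY.D4

open Finset Pool.Agent.N912.PY

theorem rep_zero (k T : ℕ) : rep k T 0 = 0 := by simp [rep]

theorem rep_succ (k T m : ℕ) : rep k T (m + 1) = rep k T m + k ^ (m * T) := by
  unfold rep
  rw [sum_range_succ]

theorem rep_mod (k T m : ℕ) : ∃ r, rep k T (m + 1) = 1 + k ^ T * r := by
  induction m with
  | zero => exact ⟨0, by simp [rep]⟩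
  | succ m ih =>
    obtain ⟨r, hr⟩ := ih
    refine ⟨r + k ^ (m * T), ?_⟩
    rw [rep_succ, hr, show (m + 1) * T = T + m * T by ring, pow_add]
    ring

theorem rep_lt (k T X : ℕ) (hX : X + 1 ≤ k ^ T) (m : ℕ) : X * rep k T m < k ^ (m * T) := by
  induction m with
  | zero => simp [rep_zero]
  | succ m ih =>
    rw [rep_succ]
    calc X * (rep k T m + k ^ (m * T)) = X * rep k T m + X * k ^ (m * T) := by ring
      _ < k ^ (m * T) + X * k ^ (m * T) := by omega
      _ = (X + 1) * k ^ (m * T) := by ring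
      _ ≤ k ^ T * k ^ (m * T) := Nat.mul_le_mul_right _ hX
      _ = k ^ ((m + 1) * T) := by rw [← pow_add]; congr 1; ring

theorem d4 : S_D4 := by
  intro k hk n₀ l₀ hn₀ hnl e d u T M hd hu hT hM
  obtain ⟨m, rfl⟩ : ∃ m, M = m + 1 := ⟨M - 1, by omega⟩
  have hk1 : k ≠ 1 := by omega
  have hk0 : 0 < k := by omega
  obtain ⟨Y, hY⟩ : ∃ Y, Y = n₀ + k ^ l₀ * u + k ^ d * n₀ := ⟨_, rfl⟩
  obtain ⟨X, hX⟩ : ∃ X, X = k ^ e * Y := ⟨_, rfl⟩
  rw [← hY, ← hX]
  have hY0 : 0 < Y := by omega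
  have hX0 : 0 < X := by rw [hX]; positivity
  have hrep : 0 < rep k T (m + 1) := by
    obtain ⟨r, hr⟩ := rep_mod k T m
    omega
  have hZ0 : X * rep k T (m + 1) ≠ 0 := (Nat.mul_pos hX0 hrep).ne'
  have hd2 : k ^ d = k ^ l₀ * k ^ (d - l₀) := by
    rw [← pow_add]; congr 1; omega
  constructor
  · -- trailing zeros
    obtain ⟨ν, hν⟩ : ∃ ν, ν = padicValNat k n₀ := ⟨_, rfl⟩
    rw [← hν]
    have h1 : ∀ v, k ^ v ∣ n₀ ↔ v ≤ ν := by
      intro v
      rw [hν]
      exact Nat.pow_dvd_iff_le_padicValNat hk1 hn₀.ne'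
    have hνl : ν < l₀ := by
      by_contra h
      push Not at h
      have := Nat.le_of_dvd hn₀ ((h1 l₀).2 h)
      omega
    have h2 : ∀ v, v ≤ l₀ → (k ^ v ∣ Y ↔ k ^ v ∣ n₀) := by
      intro v hv
      have h3 : k ^ v ∣ k ^ l₀ * u + k ^ d * n₀ :=
        dvd_add ((pow_dvd_pow k hv).mul_right _) ((pow_dvd_pow k (hv.trans hd)).mul_right _)
      rw [hY, add_assoc]
      exact (Nat.dvd_add_left h3)
    have h4 : k ^ ν ∣ Y := (h2 ν hνl.le).2 ((h1 ν).2 le_rfl)
    have h5 : ¬ k ^ (ν + 1) ∣ Y := fun h => by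
      have := (h1 (ν + 1)).1 ((h2 (ν + 1) hνl).1 h)
      omega
    have h6 : k ^ (e + ν) ∣ X * rep k T (m + 1) := by
      rw [hX, pow_add]
      exact (mul_dvd_mul_left _ h4).mul_right _
    have h7 : ¬ k ^ (e + ν + 1) ∣ X * rep k T (m + 1) := by
      intro h
      obtain ⟨r, hr⟩ := rep_mod k T m
      rw [hr, mul_add, mul_one] at h
      have h8 : k ^ (e + ν + 1) ∣ X * (k ^ T * r) :=
        ((pow_dvd_pow k (by omega)).mul_right _).mul_left _
      have h9 : k ^ (e + ν + 1) ∣ X := (Nat.dvd_add_left h8).1 h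
      rw [hX, add_assoc, pow_add] at h9
      exact h5 ((Nat.mul_dvd_mul_iff_left (by positivity)).1 h9)
    rw [Nat.pow_dvd_iff_le_padicValNat hk1 hZ0] at h6 h7
    omega
  · -- digits
    obtain ⟨lam, hlam⟩ : ∃ lam, lam = Nat.log k n₀ := ⟨_, rfl⟩
    rw [← hlam]
    have h1 : k ^ lam ≤ n₀ := by rw [hlam]; exact Nat.pow_log_le_self k hn₀.ne'
    have h2 : n₀ + 1 ≤ k ^ (lam + 1) := by rw [hlam]; exact Nat.lt_pow_succ_log_self (by omega) n₀
    have h3 : lam < l₀ := by
      rw [← Nat.pow_lt_pow_iff_right (a := k) (by omega)]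
      omega
    have h4 : n₀ + k ^ l₀ * u + 1 ≤ k ^ d := by
      rw [hd2]
      calc n₀ + k ^ l₀ * u + 1 ≤ k ^ l₀ + k ^ l₀ * u := by omega
        _ = k ^ l₀ * (u + 1) := by ring
        _ ≤ k ^ l₀ * k ^ (d - l₀) := Nat.mul_le_mul_left _ hu
    have h5 : k ^ (d + lam) ≤ Y := by
      rw [hY, pow_add]
      have := Nat.mul_le_mul_left (k ^ d) h1
      omega
    have h6 : Y + 1 ≤ k ^ (d + lam + 1) := by
      have h7 := Nat.mul_le_mul_left (k ^ d) h2
      rw [hY, add_assoc d lam 1, pow_add]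
      rw [mul_add, mul_one] at h7
      omega
    have h8 : k ^ (e + d + lam) ≤ X := by
      rw [hX, add_assoc, pow_add]
      exact Nat.mul_le_mul_left _ h5
    have h9 : X + 1 ≤ k ^ (e + d + lam + 1) := by
      have h10 := Nat.mul_le_mul_left (k ^ e) h6
      have h11 : 0 < k ^ e := by positivity
      rw [hX, show e + d + lam + 1 = e + (d + lam + 1) by ring, pow_add]
      rw [mul_add, mul_one] at h10
      omega
    have h12 : X + 1 ≤ k ^ T := h9.trans (Nat.pow_le_pow_right hk0 (by omega))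
    have h13 := rep_lt k T X h12 m
    apply Nat.log_eq_of_pow_le_of_lt_pow
    · rw [rep_succ]
      calc k ^ ((m + 1 - 1) * T + e + d + lam) = k ^ (e + d + lam) * k ^ (m * T) := by
            rw [← pow_add]; congr 1; simp; ring
        _ ≤ X * k ^ (m * T) := Nat.mul_le_mul_right _ h8
        _ ≤ X * (rep k T m + k ^ (m * T)) := Nat.mul_le_mul_left _ (Nat.le_add_left _ _)
    · rw [rep_succ]
      calc X * (rep k T m + k ^ (m * T)) = X * rep k T m + X * k ^ (m * T) := by ring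
        _ < k ^ (m * T) + X * k ^ (m * T) := by omega
        _ = (X + 1) * k ^ (m * T) := by ring
        _ ≤ k ^ (e + d + lam + 1) * k ^ (m * T) := Nat.mul_le_mul_right _ h9
        _ = k ^ ((m + 1 - 1) * T + e + d + lam + 1) := by
            rw [← pow_add]; congr 1; simp; ring

end Pool.Agent.N458.PY.D4
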